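import Mathlib
import Pool.Agent.Helper669.Forcing
import Pool.Agent.Q209.Rnd

/-!
# Adding random reals destroys the polarized relation at every uncountable cardinal up to `λ`

Let `κ ≤ λ` be uncountable. After adding `λ` random reals `r_a`, `a < λ`, the colouring
`c (a, n) = r_a (n)` of `κ × ω` is not constant on `A × B` for any `A` of size `κ` and any
infinite `B`: the name of `B` involves only countably many coordinates, some `a ∈ A` is different
from all of them, and `r_a` is not constant on an infinite set which does not depend on `r_a`.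
This applies to `κ = 𝔡` (which is the same cardinal in the ground model and in the extension), so
`(𝔡; ω) → (𝔡; ω)` always fails after adding `λ > 𝔡` random reals.

Sentences of the forcing language are represented by the sets of conditions which force them, see
`Pool.Agent.Helper669.Forcing`.
-/

set_option autoImplicit false

namespace Pool.Agent.Results.MP_95a70f_lc.RandomRealsDestroy

open MeasureTheory Set Cardinal Q209.Rnd
open Pool.Agent.Helper669.Forcing

/-- The statement that the colour of `(x, n)` is `i`, where `c` names the set of the pairs of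
colour `true`. -/
def HasColour {P : Type} [Preorder P] {X : Type} (c : X → ℕ → Set P) (x : X) (n : ℕ) :
    Bool → Set P
  | true => meets (c x n)
  | false => fnot (meets (c x n))

/-- In the extension, every colouring of `X × ω` with two colours is constant on `A × B` for some
`A ⊆ X` of size `|X|` and some infinite `B ⊆ ω`. -/
def FPolarized (P : Type) [Preorder P] (X : Type) : Set P :=
  fall fun c : X → ℕ → Set P => fex fun A : X → Set P => fex fun B : ℕ → Set P =>
    fand (FullSize fun x => meets (A x))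
      (fand (fall fun m : ℕ => fex fun n : ℕ => fand (fground (m ≤ n)) (meets (B n)))
        (fex fun i : Bool => fall fun x => fall fun n =>
          fimp (fand (meets (A x)) (meets (B n))) (HasColour c x n i)))

/-- The name of the colouring `c (x, n) = r_{e x} (n)`. -/
def gen {L X : Type} (e : X → L) (x : X) (n : ℕ) : Set (RandomCond L) :=
  {q | mu L (q.s \ {w | w (e x, n) = true}) = 0}

/-- A condition does not force the wrong colour. -/
theorem colour_false {L X : Type} (e : X → L) (x : X) (n : ℕ) (i : Bool) {t r : RandomCond L}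
    (hr : r ∈ HasColour (gen e) x n i) (hrt : mu L (r.s \ t.s) = 0)
    (ht : t.s ⊆ {w | w (e x, n) ≠ i}) : False := by
  cases i with
  | true =>
    obtain ⟨u, hu, s, hs, hus⟩ := hr r le_rfl
    apply u.pos
    refine measure_mono_null ?_ (measure_union_null (measure_union_null hrt (Q209.Rnd.le_def.1 hu))
      (measure_union_null (Q209.Rnd.le_def.1 hus) hs))
    intro w hw
    by_cases h1 : w ∈ r.s
    · by_cases h2 : w ∈ t.s
      · by_cases h3 : w ∈ s.s
        · exact Or.inr (Or.inr ⟨h3, ht h2⟩)
        · exact Or.inr (Or.inl ⟨hw, h3⟩)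
      · exact Or.inl (Or.inl ⟨h1, h2⟩)
    · exact Or.inl (Or.inr ⟨hw, h1⟩)
  | false =>
    apply hr r le_rfl
    intro q hq
    refine ⟨q, le_rfl, q, ?_, le_rfl⟩
    refine measure_mono_null ?_ (measure_union_null hrt (Q209.Rnd.le_def.1 hq))
    intro w hw
    by_cases h1 : w ∈ r.s
    · by_cases h2 : w ∈ t.s
      · exact absurd (Bool.eq_true_of_not_eq_false (ht h2)) hw.2
      · exact Or.inl ⟨h1, h2⟩
    · exact Or.inr ⟨hw.1, h1⟩

theorem result (L X : Type) (hX : ℵ₀ < #X) (hL : #X ≤ #L) (p : RandomCond L) :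
    p ∈ fnot (FPolarized (RandomCond L) X) := by
  classical
  obtain ⟨e⟩ := hL
  intro q _ hq
  obtain ⟨p1, -, A, hA⟩ := mem_fex.1 (hq (gen e)) q le_rfl
  obtain ⟨p2, -, B, hsize, hinf, hcol⟩ := mem_fex.1 hA p1 le_rfl
  obtain ⟨p3, hp3, R, hfun, hinj, hval⟩ := mem_fex.1 hsize p2 le_rfl
  obtain ⟨p0, hp0, i, hi⟩ := mem_fex.1 hcol p3 hp3
  -- the events `n ∈ B`
  have hsup := fun n => exists_sup {r : RandomCond L | r ≤ p0 ∧ r ∈ meets (B n)}
    (fun r hr s hs => ⟨hs.trans hr.1, down_meets _ _ hr.2 _ hs⟩)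
  choose b hbm hb1 hb2 using hsup
  choose C hC hCb using fun n => exists_support (hbm n)
  let L0 : Set L := ⋃ n, Prod.fst '' C n
  have hL0 : L0.Countable := countable_iUnion fun n => (hC n).image _
  -- some element of `A` is different from all coordinates used
  have key : ∃ x, e x ∉ L0 ∧ ∃ r ≤ p0, r ∈ meets (A x) := by
    by_contra hcon
    push Not at hcon
    have h1 : ∀ x, ∃ r ≤ p0, ∃ y, r ∈ meets (R x y) ∧ e y ∈ L0 := by
      intro x
      obtain ⟨r, hr, y, hy⟩ := mem_fex.1 (hfun.1 x) p0 hp0
      obtain ⟨r', hr', hy'⟩ := mem_fimp.1 (hval x y) r (hr.trans hp0) hy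
      refine ⟨r', hr'.trans hr, y, down_meets _ _ hy _ hr', ?_⟩
      by_contra h
      exact hcon y h r' (hr'.trans hr) hy'
    choose r hr y hy hyL using h1
    have hcov : ∀ y0, Countable {x // y x = y0} := by
      intro y0
      refine ccc (fun x : {x // y x = y0} => r x.1) fun x x' hxx' => ?_
      rintro ⟨t, ht, ht'⟩
      have h2 : t ∈ meets (R x.1 y0) := by
        have := hy x.1
        rw [x.2] at this
        exact down_meets _ _ this _ ht
      have h3 : t ∈ meets (R x'.1 y0) := by
        have := hy x'.1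
        rw [x'.2] at this
        exact down_meets _ _ this _ ht'
      obtain ⟨_, -, h4⟩ := mem_fimp.1 (hinj x.1 x'.1 y0) t ((ht.trans (hr x.1)).trans hp0) ⟨h2, h3⟩
      exact hxx' (Subtype.ext h4)
    have hcount : Countable X := by
      have hL0' : Countable {y : X // e y ∈ L0} := by
        have : (e ⁻¹' L0).Countable := hL0.preimage e.injective
        exact this
      have hinj' : Function.Injective
          (fun x : X => (⟨⟨y x, hyL x⟩, ⟨x, rfl⟩⟩ : Σ z : {y : X // e y ∈ L0}, {x // y x = z.1})) := by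
        intro x x' h
        have h5 := Sigma.mk.inj h
        have h6 : y x = y x' := congrArg Subtype.val h5.1
        have h7 : HEq (⟨x, rfl⟩ : {x1 // y x1 = y x}) (⟨x', rfl⟩ : {x1 // y x1 = y x'}) := h5.2
        have h8 : ∀ (a b : X) (u v : X) (hu : y u = a) (hv : y v = b), a = b →
            HEq (⟨u, hu⟩ : {x1 // y x1 = a}) (⟨v, hv⟩ : {x1 // y x1 = b}) → u = v := by
          rintro a b u v hu hv rfl h9
          exact congrArg Subtype.val (eq_of_heq h9)
        exact h8 _ _ _ _ _ _ h6 h7
      exact hinj'.countable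
    exact absurd hX (not_lt.2 (mk_le_aleph0_iff.2 hcount))
  obtain ⟨x, hx, r, hr, hrA⟩ := key
  -- `B` is infinite
  have hone : mu L (r.s \ {w | ∀ m, ∃ n ≥ m, w ∈ b n}) = 0 := by
    have h1 : r.s \ {w | ∀ m, ∃ n ≥ m, w ∈ b n} = ⋃ m, (r.s \ ⋃ n, ⋃ _ : n ≥ m, b n) := by
      ext w
      simp only [mem_sdiff, mem_ofPred_eq, mem_iUnion, not_forall, exists_and_left]
      simp only [exists_prop]
    rw [h1]
    refine measure_iUnion_null fun m => ?_
    by_contra hcon
    have hmeas : MeasurableSet (r.s \ ⋃ n, ⋃ _ : n ≥ m, b n) :=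
      r.meas.diff (MeasurableSet.iUnion fun n => MeasurableSet.iUnion fun _ => hbm n)
    let t : RandomCond L := ⟨_, hmeas, hcon⟩
    have htr : t ≤ r := by
      rw [Q209.Rnd.le_def, sdiff_eq_empty.2 sdiff_subset, measure_empty]
    have htp : t ≤ p3 := (htr.trans hr).trans hp0
    have htp2 : t ≤ p2 := htp.trans (by assumption)
    obtain ⟨t', ht', n, hn, htB⟩ := mem_fex.1 (hinf m) t htp2
    have h2 : mu L (t'.s \ b n) = 0 := hb1 n t' ⟨(ht'.trans htr).trans hr, htB⟩
    apply t'.pos
    refine measure_mono_null ?_ (measure_union_null h2 (Q209.Rnd.le_def.1 ht'))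
    intro w hw
    by_cases h3 : w ∈ b n
    · refine Or.inr ⟨hw, fun h4 => ?_⟩
      exact h4.2 (mem_iUnion.2 ⟨n, mem_iUnion.2 ⟨hn, h3⟩⟩)
    · exact Or.inl ⟨hw, h3⟩
  -- the colour is forced
  have htwo : ∀ n, mu L (r.s ∩ {w | w (e x, n) ≠ i} ∩ b n) = 0 := by
    intro n
    by_contra hcon
    have hm : MeasurableSet {w : L × ℕ → Bool | w (e x, n) ≠ i} := by
      have : {w : L × ℕ → Bool | w (e x, n) ≠ i} =
          (fun w : L × ℕ → Bool => w (e x, n)) ⁻¹' {i}ᶜ := rfl
      rw [this]
      exact (measurable_pi_apply _) (measurableSet_singleton i).compl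
    obtain ⟨t, ⟨htp, htB⟩, hts⟩ := hb2 n _ (r.meas.inter hm) hcon
    have htr : t ≤ r := by
      rw [Q209.Rnd.le_def, sdiff_eq_empty.2 (fun w hw => (hts hw).1.1), measure_empty]
    obtain ⟨u, hu, hcolu⟩ := mem_fimp.1 (hi x n) t htp ⟨down_meets _ _ hrA _ htr, htB⟩
    exact colour_false e x n i hcolu hu (fun w hw => (hts hw).1.2)
  -- contradiction
  have hnull : mu L {w | (∀ m, ∃ n ≥ m, w ∈ b n) ∧ ∀ n, w ∈ b n → w (e x, n) = i} = 0 := by
    refine null_const (e x) i fun n => ?_
    refine sig_mono ?_ _ (hCb n)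
    intro j hj hja
    apply hx
    rw [← hja]
    exact mem_iUnion.2 ⟨n, ⟨j, hj, rfl⟩⟩
  apply r.pos
  refine measure_mono_null ?_ (measure_union_null (measure_union_null hone hnull)
    (measure_iUnion_null htwo))
  intro w hw
  by_cases h1 : ∀ m, ∃ n ≥ m, w ∈ b n
  · by_cases h2 : ∀ n, w ∈ b n → w (e x, n) = i
    · exact Or.inl (Or.inr ⟨h1, h2⟩)
    · push Not at h2
      obtain ⟨n, hn, hn'⟩ := h2
      exact Or.inr (mem_iUnion.2 ⟨n, ⟨hw, hn'⟩, hn⟩)
  · exact Or.inl (Or.inl ⟨hw, h1⟩)

end Pool.Agent.Results.MP_95a70f_lc.RandomRealsDestroy
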